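import Pool.Agent.H69.LX.KX1
import Pool.Agent.H69.THN.BEO1

/-!
Page lx (MP_52e316_nt), row BOX: the inequality of Bessel for orthonormal forms, for arbitrary
coefficients, with the majorant `Kw`.
-/

set_option autoImplicit false

namespace Pool.Agent.H69.LX

open MeasureTheory Pool.Agent.H27.L1.H34.GM Pool.Agent.H27.L1.H34.GZ Pool.Agent.H27.L1.H34.GU
  Pool.Agent.H27.L1.H34.GA Pool.Agent.H27.L1.H68.GHY Pool.Agent.H47.THN Pool.Agent.H20.LX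

theorem pf_BOX : T_BIA → T_DYM → T_MSD → T_KX1 → T_BOX := by
  intro hBIA hDYM hMSD hKX m χ hm1 hχ
  obtain ⟨cM, CM, AM, hcM, hCM, hM⟩ := hMSD m χ hm1 hχ
  refine ⟨cM, CM, AM, hcM, hCM, ?_⟩
  intro N _ T D hS ι _ _ F lam P hF hO hP δ hδ hδ2 hδc Y hY y a x0 hy ha hx0
  have hN1 : 1 ≤ N := NeZero.one_le
  obtain ⟨hK1, hK2, hK3, hK4⟩ := hKX m N hm1 hN1 χ hχ y a δ x0 hy ha hδ hδ2 hx0
  have hDm := hS.dom.meas
  have hDdet : ∀ z ∈ D, (mt z).det ≠ 0 := fun z hz =>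
    Pool.Agent.H27.L1.H55.GHY.hsd_det hm1 (hS.dom.shell z hz).1
  have hSm : MeasurableSet (DY D Y) := hDYM m D hS.dom Y
  have hSD : DY D Y ⊆ D := fun z hz => hz.1
  have hH : ∀ i, HecA m N T (F i) (lam i) := fun i => (hF i).1.toHecA
  obtain ⟨KC, hKCd⟩ : ∃ KC : V m → VN m N → V m → VN m N → ℂ, ∀ g x h w, KC g x h w =
      K1 (bi m χ δ) a δ x0 (mt g) x (mt h) w := ⟨_, fun _ _ _ _ => rfl⟩
  obtain ⟨KD, hKD⟩ : ∃ KD : V m → VN m N → V m → VN m N → ENNReal, ∀ g x h w, KD g x h w =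
      Kw (fun n => ENNReal.ofReal ‖a n‖) δ x0 (mt g) x (mt h) w := ⟨_, fun _ _ _ _ => rfl⟩
  have hKCm : ∀ x w, Measurable (fun p : V m × V m => KC p.1 x p.2 w) := by
    intro x w
    have h2 : (fun p : V m × V m => KC p.1 x p.2 w) = fun p : V m × V m =>
        K1 (bi m χ δ) a δ x0 (mt p.1) x (mt p.2) w := funext fun p => hKCd _ _ _ _
    rw [h2]
    exact hK2 x w
  have hKDm : ∀ x w, Measurable (fun p : V m × V m => KD p.1 x p.2 w) := by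
    intro x w
    have h2 : (fun p : V m × V m => KD p.1 x p.2 w) = fun p : V m × V m =>
        Kw (fun n => ENNReal.ofReal ‖a n‖) δ x0 (mt p.1) x (mt p.2) w :=
      funext fun p => hKD _ _ _ _
    rw [h2]
    exact (hK3 (fun n => ENNReal.ofReal ‖a n‖) x w).comp measurable_prodMk_left
  have hC1' : ∀ g x h w, ENNReal.ofReal ‖KC g x h w‖ ≤ KD g x h w := by
    intro g x h w
    rw [hKCd, hKD]
    exact hK1 _ _ _ _
  obtain ⟨β, hβ⟩ : ∃ β : ι → ℂ, ∀ i, β i = B1 m (lam i) a y δ x0 := ⟨_, fun _ => rfl⟩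
  have hop0 : ∀ i, ∀ g ∈ D, ∀ x : VN m N, ∫ z in D, ∑ w : VN m N, KC g x z w * F i (mt z) w
      ∂(hm m) = β i * Rr (bi m χ δ) 1 (F i) (mt g) x := by
    intro i g hg x
    rw [hβ, ← hK4 T D hS (F i) (lam i) (hH i) (mt g) x (hDdet g hg)]
    refine setIntegral_congr_fun hDm (fun z hz => ?_)
    refine Finset.sum_congr rfl (fun w _ => ?_)
    rw [hKCd]
  have e1 := Pool.Agent.H69.THN.L1.beo_gen hS hH hO KC KD hKCm hKDm hC1' β
    (fun i => Rr (bi m χ δ) 1 (F i)) hop0 (DY D Y) hSD hSm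
  have hEd : ∀ g : V m, Ew N D (fun n => ENNReal.ofReal ‖a n‖) δ x0 (mt g) =
      ∑ x : VN m N, ∫⁻ h in D, ∑ w : VN m N, (KD g x h w) ^ 2 ∂(hm m) := by
    intro g
    unfold Ew
    refine Finset.sum_congr rfl (fun x _ => ?_)
    refine lintegral_congr (fun h => Finset.sum_congr rfl (fun w _ => ?_))
    rw [hKD]
  have e2 : ∑ i, ENNReal.ofReal (‖β i‖ ^ 2) * ENNReal.ofReal (cM * tb m χ δ ^ 2) ≤
      ∑ i, ENNReal.ofReal (‖β i‖ ^ 2) *
        ∑ x, ∫⁻ g in DY D Y, ENNReal.ofReal (‖Rr (bi m χ δ) 1 (F i) (mt g) x‖ ^ 2) ∂(hm m) := by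
    apply Finset.sum_le_sum
    intro i _
    refine mul_le_mul' le_rfl ?_
    exact hM N T D hS (F i) (lam i) (hF i).1 (hF i).2.2 P δ (hF i).2.1 hP hδ hδ2 hδc Y hY
  have e3 : ∫⁻ g in DY D Y, Ew N D (fun n => ENNReal.ofReal ‖a n‖) δ x0 (mt g) ∂(hm m) =
      ∫⁻ g in DY D Y, ∑ x : VN m N, ∫⁻ h in D, ∑ w : VN m N, (KD g x h w) ^ 2 ∂(hm m)
        ∂(hm m) := lintegral_congr fun g => hEd g
  rw [e3]
  refine le_trans (le_of_eq ?_) (e2.trans e1)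
  rw [← Finset.sum_mul, mul_comm]
  refine congrArg (fun s => s * ENNReal.ofReal (cM * tb m χ δ ^ 2)) ?_
  refine Finset.sum_congr rfl fun i _ => ?_
  rw [one_mul, hβ]

theorem c_BOX : T_BOX :=
  pf_BOX Pool.Agent.H27.L1.H23.GA.All.c_BIA Pool.Agent.H27.L1.H34.GZ.a_DYM
    Pool.Agent.H27.L1.H23.GHY.All.c_MSD c_KX1

end Pool.Agent.H69.LX
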