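import Pool.Agent.H20.LX.T
import Pool.Agent.H20.THN.OC1

/-!
Page lx (MP_52e316_nt), row KX1: the kernel of one Hecke operator with arbitrary coefficients,
its majorant, its measurability and its eigenvalue.
-/

set_option autoImplicit false

namespace Pool.Agent.H69.LX

open MeasureTheory Pool.Agent.H27.L1.H34.GM Pool.Agent.H27.L1.H34.GZ Pool.Agent.H27.L1.H34.GU
  Pool.Agent.H27.L1.H34.GA Pool.Agent.H27.L1.H68.GHY Pool.Agent.H47.THN Pool.Agent.H20.THN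
  Pool.Agent.H20.LX

/-- the kernel has the majorant `Kw` -/
theorem K1_le {m N : ℕ} {χ : ℝ → ℝ} (hχ : Prof χ) (a : ℕ → ℂ) {d x0 : ℝ} (hd : 0 < d)
    (g h : Mat m) (x w : VN m N) :
    ENNReal.ofReal ‖K1 (bi m χ d) a d x0 g x h w‖ ≤
      Kw (fun n => ENNReal.ofReal ‖a n‖) d x0 g x h w := by
  classical
  unfold K1 Kw
  rw [ofReal_norm]
  refine enorm_tsum_le_tsum_enorm.trans (ENNReal.tsum_le_tsum fun γ => ?_)
  by_cases h1 : ac N γ x = w ∧ Pr w ∧ γ.det ≠ 0 ∧ wd x0 d γ.det.natAbs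
  · rw [if_pos h1]
    by_cases h2 : bi m χ d (kk (aN (cR γ)) h (cR γ) g) = 0
    · rw [h2]
      simp
    · have h4 := Pool.Agent.H27.L1.H49.GHY.bi_supp1 hχ hd _ h2
      rw [if_pos ⟨h1.1, h1.2.1, h1.2.2.2, h4⟩, ← ofReal_norm]
      apply ENNReal.ofReal_le_ofReal
      rw [norm_mul]
      calc ‖a γ.det.natAbs‖ * ‖bi m χ d (kk (aN (cR γ)) h (cR γ) g)‖ ≤ ‖a γ.det.natAbs‖ * 1 :=
            mul_le_mul_of_nonneg_left (Pool.Agent.H27.L1.H79.GA.bi_norm_le hχ d _)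
              (norm_nonneg _)
        _ = ‖a γ.det.natAbs‖ := mul_one _
  · rw [if_neg h1]
    simp

/-- measurability of the majorant -/
theorem Kw_meas (hMSR : T_MSR) (m N : ℕ) (ω : ℕ → ENNReal) (d : ℝ) (x w : VN m N) :
    Measurable (fun p : ℝ × V m × V m => Kw ω d p.1 (mt p.2.1) x (mt p.2.2) w) := by
  classical
  obtain ⟨hms, -, -⟩ := hMSR
  obtain ⟨-, -, -, hsz, -, -, hkk, hΦc⟩ := hms m
  have hct : Countable (ZM m) := (inferInstance : Countable (Fin m → Fin m → ℤ))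
  unfold Kw
  refine Measurable.tsum fun γ => ?_
  refine Measurable.ite ?_ measurable_const measurable_const
  have h0 : Measurable (fun p : ℝ × V m × V m => p.2) := measurable_snd
  have h1 := (Pool.Agent.H27.L1.H69.GHY.kmd_kk (fun z => sz (z - 1)) (cR γ)
    (hkk (aN (cR γ)) (cR γ)) (Pool.Agent.H27.L1.H69.GHY.kmd_sz m)).comp h0
  have h2 : MeasurableSet {p : ℝ × V m × V m |
      sz (kk (aN (cR γ)) (mt p.2.2) (cR γ) (mt p.2.1) - 1) ≤ d} :=
    measurableSet_le h1 measurable_const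
  have h3 : MeasurableSet {p : ℝ × V m × V m | wd p.1 d γ.det.natAbs} :=
    (measurableSet_lt measurable_fst measurable_const).inter
      (measurableSet_le measurable_const (measurable_fst.mul_const _))
  refine MeasurableSet.inter (MeasurableSet.const _) ?_
  refine MeasurableSet.inter (MeasurableSet.const _) ?_
  exact MeasurableSet.inter h3 h2

/-- the kernel of the targets -/
theorem K1_eq0 {m N : ℕ} (Φ : Mat m → ℂ) {a : ℕ → ℂ} (ha0 : a 0 = 0)
    (d x0 : ℝ) (g : Mat m) (x : VN m N) (h : Mat m) (w : VN m N) :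
    K1 Φ a d x0 g x h w = Kb Φ (bw a d x0) g x h w := by
  classical
  unfold K1 Kb
  refine tsum_congr fun γ => ?_
  by_cases h1 : ac N γ x = w ∧ Pr w
  · rw [if_pos h1]
    by_cases h2 : γ.det ≠ 0
    · by_cases h3 : wd x0 d γ.det.natAbs
      · rw [if_pos ⟨h1.1, h1.2, h2, h3⟩, bw_pos h3]
      · rw [if_neg fun h => h3 h.2.2.2, bw_neg h3, zero_mul]
    · rw [if_neg fun h => h2 h.2.2.1]
      push Not at h2
      have h4 : bw a d x0 γ.det.natAbs = 0 := by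
        by_contra h5
        have h6 := (bw_ne h5).2.2
        rw [h2, Int.natAbs_zero] at h6
        exact h6 ha0
      rw [h4, zero_mul]
  · rw [if_neg fun h => h1 ⟨h.1, h.2.1⟩, if_neg h1]

/-- the window lies in `(y / 2, y]` for `y = x0 exp d` -/
theorem wd_half {x0 d : ℝ} (hx0 : 0 < x0) (hd2 : d ≤ 1 / 2) {n : ℕ} (h : wd x0 d n) :
    x0 * Real.exp d / 2 < (n : ℝ) ∧ (n : ℝ) ≤ x0 * Real.exp d := by
  refine ⟨?_, h.2⟩
  have h1 : Real.exp d ≤ 2 := by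
    have h2 : Real.exp d ≤ Real.exp (1 / 2) := Real.exp_le_exp.2 hd2
    have h3 : Real.exp (1 / 2) ^ 2 = Real.exp 1 := by
      rw [← Real.exp_nat_mul]
      norm_num
    have h4 := Real.exp_one_lt_d9
    have h5 : 0 < Real.exp (1 / 2) := Real.exp_pos _
    nlinarith
  have h2 : x0 * Real.exp d ≤ x0 * 2 := mul_le_mul_of_nonneg_left h1 hx0.le
  have h3 := h.1
  linarith

/-- **the eigenvalue of the operator** -/
theorem kb_eig0 (hUNF : Pool.Agent.H27.L1.H68.GHY.T_UNF) (hBIA : T_BIA) (hRRA : T_RRA) {m N : ℕ}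
    [NeZero N] {T : ℕ → Finset (ZM m)} {D : Set (V m)} (hS : SysZ m N T D)
    {F : Mat m → VN m N → ℂ} {lam : ℕ → ℂ} (hF : HecA m N T F lam) {χ : ℝ → ℝ} (hχ : Prof χ)
    {y : ℕ} {a : ℕ → ℂ} {d x0 : ℝ} (ha : Cfy y a) (hd : 0 < d) (hd2 : d ≤ 1 / 2)
    (hx0 : 0 < x0) (g : Mat m) (x : VN m N) (hg : g.det ≠ 0) :
    ∫ z in D, ∑ w : VN m N, Kb (bi m χ d) (bw a d x0) g x (mt z) w * F (mt z) w ∂(hm m) =
      B1 m lam a y d x0 * Rr (bi m χ d) 1 F g x := by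
  classical
  obtain ⟨C, -, hC⟩ := hBIA m χ hS.one_le hχ
  have hΦ : Tg m (bi m χ d) := (hC d hd hd2).1.toTg
  have ha0 : a 0 = 0 := by
    by_contra h
    have := (ha 0 h).1
    omega
  have h1 : ∫ z in D, ∑ w : VN m N, Kb (bi m χ d) (bw a d x0) g x (mt z) w * F (mt z) w
        ∂(hm m) =
      ∫ z in D, ∑' γ : ZM m, bw a d x0 γ.det.natAbs *
        (bi m χ d (kk (aN (cR γ)) (mt z) (cR γ) g) * F (mt z) (ac N γ x)) ∂(hm m) := by
    refine setIntegral_congr_fun hS.dom.meas fun z hz => ?_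
    have hh := det_mt_ne hS z hz
    refine (ker_sum (fun γ : ZM m => bw a d x0 γ.det.natAbs)
      (fun γ : ZM m => bi m χ d (kk (aN (cR γ)) (mt z) (cR γ) g)) x (fun w => F (mt z) w)
      (fun w hw => hF.supp _ w hw) ?_).symm
    refine (Pool.Agent.H27.L1.H79.GA.sz_finite hS.one_le (x0 * Real.exp d) g (mt z) hg hh).subset
      ?_
    intro γ hγ
    have h2 := left_ne_zero_of_mul hγ
    have h3 := wd_half hx0 hd2 (bw_ne h2).1
    exact ⟨h3.1, h3.2,
      Pool.Agent.H27.L1.H79.GA.bi_supp hχ hd hd2 _ (right_ne_zero_of_mul hγ)⟩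
  rw [h1, ocf_gen hUNF hRRA hS hF hΦ (bw a d x0) (y : ℝ) ?_ ?_ g x hg]
  · congr 1
    unfold B1
    refine Finset.sum_congr rfl fun n _ => ?_
    unfold tl
    by_cases hw : wd x0 d n
    · rw [bw_pos hw, if_pos hw]
    · rw [bw_neg hw, if_neg hw, zero_mul]
  · by_contra h
    exact (bw_ne h).2.2 ha0
  · intro n hn
    by_contra h
    have h2 := (ha n (bw_ne h).2.2).2
    have h3 : (n : ℝ) ≤ y := by exact_mod_cast h2
    linarith

/-- **row KX1** -/
theorem pf_KX1 (hUNF : Pool.Agent.H27.L1.H68.GHY.T_UNF) (hBIA : T_BIA) (hRRA : T_RRA)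
    (hMSR : T_MSR) (hKM1 : T_KM1) : T_KX1 := by
  intro m N _ hm hN χ hχ y a d x0 hy ha hd hd2 hx0
  obtain ⟨C, -, hC⟩ := hBIA m χ hm hχ
  have hΦ : Tg m (bi m χ d) := (hC d hd hd2).1.toTg
  have ha0 : a 0 = 0 := by
    by_contra h
    have := (ha 0 h).1
    omega
  refine ⟨fun g h x w => K1_le hχ a hd g h x w, fun x w => hKM1 m N d x w hm _ hΦ a x0,
    fun ω x w => Kw_meas hMSR m N ω d x w, ?_⟩
  intro T D hS F lam hF g x hg
  rw [← kb_eig0 hUNF hBIA hRRA hS hF hχ ha hd hd2 hx0 g x hg]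
  simp only [K1_eq0 (bi m χ d) ha0]

theorem c_KX1 : T_KX1 := pf_KX1 Pool.Agent.H27.L1.H23.GHY.All.c_UNF
  Pool.Agent.H27.L1.H23.GA.All.c_BIA Pool.Agent.H27.L1.H23.GA.All.c_RRA
  Pool.Agent.H27.L1.H34.GZ.g_MSR Pool.Agent.H20.THN.c_KM1

end Pool.Agent.H69.LX
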